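import Pool.Agent.Q116.Inv.Upper
import Pool.Agent.Q116.Inv.PathG

set_option autoImplicit false

/-!
# The inverse Turán number of paths of odd length (MP_002b89_co, Q1)

For every `t ≥ 1`: `ex⁻¹(k, P_{2t+1}) = C(⌊k/t⌋, 2) + o(k²)`.
Here `P_{2t+1}` is the path with `2t+1` edges, i.e. `pathGraph (2 * t + 2)`.
-/

namespace Pool.Agent.Results.MP_002b89_co.InvTuranOddPath

open SimpleGraph Filter Asymptotics Q116

/-- The set of numbers of edges of finite graphs `G` all of whose `F`-free subgraphs have less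
than `k` edges, that is, `ex(G, F) < k`. -/
def edgeCounts {W : Type} (F : SimpleGraph W) (k : ℕ) : Set ℕ :=
  {e | ∃ (n : ℕ) (G : SimpleGraph (Fin n)),
    (∀ H : SimpleGraph (Fin n), H ≤ G → F.Free H → H.edgeSet.ncard < k) ∧ G.edgeSet.ncard = e}

/-- The inverse Turán number `ex⁻¹(k, F) = sup {e(G) : ex(G, F) < k}`. -/
noncomputable def invTuran {W : Type} (k : ℕ) (F : SimpleGraph W) : ℕ :=
  sSup (edgeCounts F k)

theorem mem_supp {V : Type} [Fintype V] [DecidableEq V] (G : SimpleGraph V)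
    [DecidableRel G.Adj] (v : V) : v ∈ Inv.supp G ↔ ∃ u, G.Adj v u := by
  simp [Inv.supp]

theorem edgeCounts_le (t k : ℕ) (ht : 1 ≤ t) (e : ℕ)
    (he : e ∈ edgeCounts (pathGraph (2 * t + 2)) k) : e ≤ 8 * k ^ 2 := by
  classical
  obtain ⟨n, G, hG, rfl⟩ := he
  have hG' : Inv.Small G t k := hG
  have hk : 0 < k := by
    have := hG ⊥ bot_le (by
      rintro ⟨φ⟩
      have h0 : (pathGraph (2 * t + 2)).Adj ⟨0, by omega⟩ ⟨1, by omega⟩ := by
        rw [pathGraph_adj]; simp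
      exact (φ.toHom.map_adj h0))
    omega
  have h1 := Inv.edges_le t k 4 (by norm_num) ht hG'
  have h2 : (Finset.univ.filter (fun u => (4 : ℝ) * k ≤ (G.degree u : ℝ))) = ∅ := by
    rw [Finset.filter_eq_empty_iff]
    intro u _
    push Not
    have h3 : G.degree u ≤ 2 * k := by
      refine le_trans ?_ (Inv.supp_card ht hG')
      rw [← SimpleGraph.card_neighborFinset_eq_degree]
      apply Finset.card_le_card
      intro w hw
      rw [SimpleGraph.mem_neighborFinset] at hw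
      exact (mem_supp G w).2 ⟨u, hw.symm⟩
    have h4 : (G.degree u : ℝ) ≤ 2 * k := by exact_mod_cast h3
    have h5 : (0 : ℝ) < k := by exact_mod_cast hk
    linarith
  rw [h2] at h1
  have h6 : (G.edgeSet.ncard : ℝ) ≤ 8 * k ^ 2 := by
    refine h1.trans ?_
    simp
    ring_nf
    exact le_refl _
  exact_mod_cast h6

theorem bdd (t k : ℕ) (ht : 1 ≤ t) : BddAbove (edgeCounts (pathGraph (2 * t + 2)) k) :=
  ⟨8 * k ^ 2, fun e he => edgeCounts_le t k ht e he⟩

theorem complete_mem (t k : ℕ) (hk : 1 ≤ k) :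
    ((k - 1) / t).choose 2 ∈ edgeCounts (pathGraph (2 * t + 2)) k := by
  classical
  refine ⟨(k - 1) / t, ⊤, ?_, ?_⟩
  · intro H _ hfree
    have h1 := Inv.eg_graph H (2 * t + 1) hfree
    rw [Fintype.card_fin] at h1
    have h2 : t * ((k - 1) / t) ≤ k - 1 := Nat.mul_div_le _ _
    have h3 : 2 * H.edgeSet.ncard ≤ 2 * (t * ((k - 1) / t)) := by
      refine h1.trans ?_
      rw [Nat.add_sub_cancel]
      exact le_of_eq (by ring)
    omega
  · rw [← SimpleGraph.coe_edgeFinset, Set.ncard_coe_finset,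
      SimpleGraph.card_edgeFinset_top_eq_card_choose_two, Fintype.card_fin]

theorem isGreatest (t k : ℕ) (ht : 1 ≤ t) (hk : 1 ≤ k) :
    IsGreatest (edgeCounts (pathGraph (2 * t + 2)) k) (invTuran k (pathGraph (2 * t + 2))) :=
  ⟨Nat.sSup_mem ⟨_, complete_mem t k hk⟩ (bdd t k ht), fun _ he => le_csSup (bdd t k ht) he⟩

theorem upper (t : ℕ) (ht : 1 ≤ t) (d : ℝ) (hd : 0 < d) (hd1 : d ≤ 1) :
    ∀ᶠ k : ℕ in atTop, (invTuran k (pathGraph (2 * t + 2)) : ℝ) ≤
      ((k / t : ℕ).choose 2 : ℝ) + 7 * d * k ^ 2 := by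
  classical
  have htr : (1 : ℝ) ≤ t := by exact_mod_cast ht
  obtain ⟨s, hs⟩ := exists_pow_lt_of_lt_one (show (0 : ℝ) < d / 2 by positivity)
    (show 1 - (d / 4) ^ t < 1 by
      have : 0 < (d / 4) ^ t := by positivity
      linarith)
  obtain ⟨k0, hk0⟩ := exists_nat_ge ((2 * ((s * t : ℕ) : ℝ) + 2 * t + 2) / d)
  filter_upwards [eventually_ge_atTop (max k0 1)] with k hk
  have hk1 : 1 ≤ k := le_trans (le_max_right _ _) hk
  have hkk : (k0 : ℝ) ≤ k := by exact_mod_cast le_trans (le_max_left _ _) hk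
  have hkr : (1 : ℝ) ≤ k := by exact_mod_cast hk1
  have hdk : 2 * ((s * t : ℕ) : ℝ) + 2 * t + 2 ≤ d * k := by
    have := hk0.trans hkk
    rw [div_le_iff₀ hd] at this
    linarith
  obtain ⟨n, G, hG, he⟩ := (isGreatest t k ht hk1).1
  rw [← he]
  have hG' : Inv.Small G t k := hG
  have h1 := Inv.edges_le t k d hd ht hG'
  have h2 := Inv.large_card t k d hd (by linarith) ht hG' (by omega) s (by linarith) hs.le
  set u := ((Finset.univ.filter (fun u => d * k ≤ (G.degree u : ℝ))).card : ℝ) with hu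
  have hu0 : 0 ≤ u := by rw [hu]; positivity
  have h3 : u ≤ k / t + 2 * (d * k) := by
    push_cast at hdk
    have : (0 : ℝ) ≤ (t : ℝ) := by positivity
    have : (0 : ℝ) ≤ (s : ℝ) * t := by positivity
    linarith
  have hx0 : (0 : ℝ) ≤ (k : ℝ) / t := by positivity
  have hx1 : (k : ℝ) / t ≤ k := div_le_self (by positivity) htr
  have h4 : u ^ 2 ≤ (k / t + 2 * (d * k)) ^ 2 := pow_le_pow_left₀ hu0 h3 2
  have hdk0 : 0 ≤ d * k := by positivity
  have h5 : (k / t + 2 * (d * k)) ^ 2 ≤ ((k : ℝ) / t) ^ 2 + 8 * (d * k ^ 2) := by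
    have e1 : (d * k) * ((k : ℝ) / t) ≤ d * k * k := mul_le_mul_of_nonneg_left hx1 hdk0
    have e2 : (d * k) * (d * k) ≤ (d * k) * (1 * k) :=
      mul_le_mul_of_nonneg_left (mul_le_mul_of_nonneg_right hd1 (by positivity)) hdk0
    calc (k / t + 2 * (d * k)) ^ 2 = ((k : ℝ) / t) ^ 2 + 4 * ((d * k) * ((k : ℝ) / t)) +
          4 * ((d * k) * (d * k)) := by ring
      _ ≤ ((k : ℝ) / t) ^ 2 + 4 * (d * k * k) + 4 * ((d * k) * (1 * k)) := by linarith
      _ = _ := by ring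
  -- the binomial coefficient
  have h6 : ((k : ℝ) / t) ^ 2 / 2 ≤ ((k / t : ℕ).choose 2 : ℝ) + 2 * k := by
    rw [Nat.cast_choose_two]
    have e1 : (k : ℝ) / t < ((k / t : ℕ) : ℝ) + 1 := by
      rw [div_lt_iff₀ (by positivity)]
      have := Nat.lt_mul_div_succ k (show 0 < t by omega)
      have h : (k : ℝ) < t * ((k / t : ℕ) + 1) := by exact_mod_cast this
      linarith
    have e2 : ((k / t : ℕ) : ℝ) ≤ (k : ℝ) / t := Nat.cast_div_le
    have e3 : (0 : ℝ) ≤ ((k / t : ℕ) : ℝ) := by positivity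
    have e5 : ((k / t : ℕ) : ℝ) ≤ k := e2.trans hx1
    have e4 : ((k : ℝ) / t) ^ 2 ≤ (((k / t : ℕ) : ℝ) + 1) ^ 2 := pow_le_pow_left₀ hx0 e1.le 2
    have e6 : (((k / t : ℕ) : ℝ) + 1) ^ 2 = 2 * (((k / t : ℕ) : ℝ) * (((k / t : ℕ) : ℝ) - 1) / 2) +
        3 * ((k / t : ℕ) : ℝ) + 1 := by ring
    linarith
  have h7 : 2 * (k : ℝ) ≤ d * k ^ 2 := by
    have e1 : (2 : ℝ) ≤ d * k := by
      have : (0 : ℝ) ≤ ((s * t : ℕ) : ℝ) := by positivity
      linarith
    calc 2 * (k : ℝ) ≤ (d * k) * k := mul_le_mul_of_nonneg_right e1 (by positivity)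
      _ = _ := by ring
  linarith

theorem lower (t : ℕ) (ht : 1 ≤ t) (d : ℝ) (hd : 0 < d) :
    ∀ᶠ k : ℕ in atTop, ((k / t : ℕ).choose 2 : ℝ) - d * k ^ 2 ≤
      (invTuran k (pathGraph (2 * t + 2)) : ℝ) := by
  obtain ⟨k0, hk0⟩ := exists_nat_ge (1 / d)
  filter_upwards [eventually_ge_atTop (max k0 1)] with k hk
  have hk1 : 1 ≤ k := le_trans (le_max_right _ _) hk
  have hkk : (k0 : ℝ) ≤ k := by exact_mod_cast le_trans (le_max_left _ _) hk
  have hdk : 1 ≤ d * k := by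
    have := hk0.trans hkk
    rw [div_le_iff₀ hd] at this
    linarith
  have h1 : ((k - 1) / t).choose 2 ≤ invTuran k (pathGraph (2 * t + 2)) :=
    le_csSup (bdd t k ht) (complete_mem t k hk1)
  have h2 : k / t ≤ (k - 1) / t + 1 := by
    rw [← Nat.add_div_right _ (by omega)]
    exact Nat.div_le_div_right (by omega)
  have h3 : (k / t).choose 2 ≤ ((k - 1) / t).choose 2 + k := by
    calc (k / t).choose 2 ≤ ((k - 1) / t + 1).choose 2 := Nat.choose_le_choose 2 h2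
      _ = ((k - 1) / t).choose 1 + ((k - 1) / t).choose 2 := by rw [Nat.choose_succ_succ]
      _ ≤ ((k - 1) / t).choose 2 + k := by
        rw [Nat.choose_one_right]
        have : (k - 1) / t ≤ k - 1 := Nat.div_le_self _ _
        omega
  have h4 : ((k / t : ℕ).choose 2 : ℝ) ≤ (((k - 1) / t : ℕ).choose 2 : ℝ) + k := by
    exact_mod_cast h3
  have h5 : ((((k - 1) / t : ℕ).choose 2 : ℕ) : ℝ) ≤
      (invTuran k (pathGraph (2 * t + 2)) : ℝ) := by exact_mod_cast h1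
  have h8 : 1 * (k : ℝ) ≤ (d * k) * k := mul_le_mul_of_nonneg_right hdk (by positivity)
  have h9 : (d * k) * (k : ℝ) = d * k ^ 2 := by ring
  linarith

/-- **Q1 of MP_002b89_co.** For every `t ≥ 1`, the supremum defining `ex⁻¹(k, P_{2t+1})` is an
attained maximum for every `k ≥ 1`, and `ex⁻¹(k, P_{2t+1}) = C(⌊k/t⌋, 2) + o(k²)`. -/
theorem result : ∀ t : ℕ, 1 ≤ t →
    (∀ k : ℕ, 1 ≤ k → IsGreatest (edgeCounts (pathGraph (2 * t + 2)) k)
      (invTuran k (pathGraph (2 * t + 2)))) ∧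
    (fun k : ℕ => (invTuran k (pathGraph (2 * t + 2)) : ℝ) - ((k / t : ℕ).choose 2 : ℝ))
      =o[atTop] (fun k : ℕ => (k : ℝ) ^ 2) := by
  intro t ht
  refine ⟨fun k hk => isGreatest t k ht hk, ?_⟩
  rw [Asymptotics.isLittleO_iff]
  intro c hc
  have hd : 0 < min 1 (c / 7) := lt_min one_pos (by positivity)
  filter_upwards [upper t ht (min 1 (c / 7)) hd (min_le_left _ _),
    lower t ht (min 1 (c / 7)) hd] with k h1 h2
  have hc7 : min 1 (c / 7) ≤ c / 7 := min_le_right _ _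
  have hk2 : (0 : ℝ) ≤ (k : ℝ) ^ 2 := by positivity
  have h3 : min 1 (c / 7) * (k : ℝ) ^ 2 ≤ c / 7 * (k : ℝ) ^ 2 :=
    mul_le_mul_of_nonneg_right hc7 hk2
  have h4 : (0 : ℝ) ≤ c * (k : ℝ) ^ 2 := by positivity
  rw [Real.norm_eq_abs, Real.norm_eq_abs, abs_of_nonneg hk2, abs_le]
  constructor <;> linarith

end Pool.Agent.Results.MP_002b89_co.InvTuranOddPath
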